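import Pool.Agent.Y63.NV.Stm

/-!
# Additivity of multiplicities of eigenvalues on exact sequences (job NV-LA)
-/

set_option autoImplicit false

namespace Pool.Agent.Y487.NV

open Pool.Agent.Y63.NV

section
variable {F : Type} [Field F] {E : Type} [AddCommGroup E] [Module F E]
  {T T₂ π : Module.End F E} {V : Submodule F E}

theorem pow_mem (hT : ∀ v ∈ V, T v ∈ V) (μ : F) (k : ℕ) : ∀ v ∈ V,
    ((T - μ • (1 : Module.End F E)) ^ k) v ∈ V := by
  induction k with
  | zero => intro v hv; simpa using hv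
  | succ k ih =>
    intro v hv
    rw [pow_succ, Module.End.mul_apply]
    refine ih _ ?_
    rw [LinearMap.sub_apply, LinearMap.smul_apply, Module.End.one_apply]
    exact V.sub_mem (hT v hv) (V.smul_mem _ hv)

theorem pow_comm (hT : ∀ v ∈ V, T v ∈ V) (hcomm : ∀ v ∈ V, π (T v) = T₂ (π v)) (μ : F) (k : ℕ) :
    ∀ v ∈ V, π (((T - μ • (1 : Module.End F E)) ^ k) v) =
      ((T₂ - μ • (1 : Module.End F E)) ^ k) (π v) := by
  induction k with
  | zero => intro v _; simp
  | succ k ih =>
    intro v hv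
    have h1 : (T - μ • (1 : Module.End F E)) v ∈ V := by
      have := pow_mem hT μ 1 v hv
      rwa [pow_one] at this
    have h2 : π ((T - μ • (1 : Module.End F E)) v) = (T₂ - μ • (1 : Module.End F E)) (π v) := by
      rw [LinearMap.sub_apply, LinearMap.smul_apply, Module.End.one_apply, map_sub, map_smul,
        hcomm v hv, LinearMap.sub_apply, LinearMap.smul_apply, Module.End.one_apply]
    rw [pow_succ, Module.End.mul_apply, ih _ h1, h2, pow_succ, Module.End.mul_apply]

end

/-- additivity of multiplicities of eigenvalues on exact sequences -/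
theorem la : S_LA := by
  intro F _ _ E _ _ _ T T₂ π V V₁ V₂ hT hT₂ hle hπ hsurj hker hcomm c
  have hmap : ∀ μ, ∀ v ∈ V, v ∈ T.maxGenEigenspace μ → π v ∈ T₂.maxGenEigenspace μ := by
    intro μ v hv h
    rw [Module.End.mem_maxGenEigenspace] at h ⊢
    obtain ⟨k, hk⟩ := h
    refine ⟨k, ?_⟩
    rw [← pow_comm hT hcomm μ k v hv, hk, map_zero]
  -- the kernel
  set A : Submodule F E := V ⊓ T.maxGenEigenspace c with hA
  have h1 : (LinearMap.ker (π.domRestrict A)).map A.subtype = V₁ ⊓ T.maxGenEigenspace c := by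
    ext x
    constructor
    · rintro ⟨⟨y, hy⟩, hy0, rfl⟩
      have hy1 : π y = 0 := hy0
      exact ⟨(hker y hy.1).1 hy1, hy.2⟩
    · rintro ⟨hx1, hx2⟩
      refine ⟨⟨x, hle hx1, hx2⟩, ?_, rfl⟩
      exact (hker x (hle hx1)).2 hx1
  -- the range
  have h2 : LinearMap.range (π.domRestrict A) = V₂ ⊓ T₂.maxGenEigenspace c := by
    ext w
    constructor
    · rintro ⟨⟨y, hy⟩, rfl⟩
      exact ⟨hπ y hy.1, hmap c y hy.1 hy.2⟩
    · rintro ⟨hw1, hw2⟩
      obtain ⟨v, hv, rfl⟩ := hsurj w hw1
      have h3 : v ∈ ⨆ μ, V ⊓ T.maxGenEigenspace μ := by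
        have h4 := Submodule.inf_iSup_genEigenspace hT ⊤
        have h5 : ⨆ μ, T.genEigenspace μ ⊤ = ⊤ := Module.End.iSup_maxGenEigenspace_eq_top T
        rw [h5, inf_top_eq] at h4
        have h6 : v ∈ ⨆ μ, V ⊓ T.genEigenspace μ ⊤ := h4 ▸ hv
        exact h6
      obtain ⟨f, hf, hsum⟩ := (Submodule.mem_iSup_iff_exists_finsupp _ _).1 h3
      classical
      have h4 : π v - π (f c) = ∑ μ ∈ (insert c f.support).erase c, π (f μ) := by
        have h5 : ∑ μ ∈ insert c f.support, f μ = ∑ μ ∈ f.support, f μ :=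
          Finset.sum_insert_of_eq_zero_if_notMem fun h => Finsupp.notMem_support_iff.1 h
        have h6 := Finset.sum_erase_add (insert c f.support) (fun μ => f μ)
          (Finset.mem_insert_self c f.support)
        have h7 : v = ∑ μ ∈ (insert c f.support).erase c, f μ + f c := by
          rw [h6, h5]
          exact hsum.symm
        rw [h7, map_add, map_sum]
        abel
      have h5 : π v - π (f c) ∈ T₂.maxGenEigenspace c :=
        Submodule.sub_mem _ hw2 (hmap c _ (hf c).1 (hf c).2)
      have h6 : π v - π (f c) ∈ ⨆ μ, ⨆ _ : μ ≠ c, T₂.maxGenEigenspace μ := by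
        rw [h4]
        refine Submodule.sum_mem _ fun μ hμ => ?_
        have hne : μ ≠ c := Finset.ne_of_mem_erase hμ
        exact Submodule.mem_iSup_of_mem μ (Submodule.mem_iSup_of_mem hne
          (hmap μ _ (hf μ).1 (hf μ).2))
      have h7 := Submodule.disjoint_def.1 (Module.End.independent_maxGenEigenspace T₂ c) _ h5 h6
      exact ⟨⟨f c, hf c⟩, (sub_eq_zero.1 h7).symm⟩
  have h3 := LinearMap.finrank_range_add_finrank_ker (π.domRestrict A)
  have h4 : Module.finrank F (LinearMap.ker (π.domRestrict A)) =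
      Module.finrank F ↥(V₁ ⊓ T.maxGenEigenspace c) := by
    rw [← h1]
    exact LinearEquiv.finrank_eq
      (Submodule.equivMapOfInjective A.subtype A.injective_subtype _)
  rw [h2, h4] at h3
  rw [← h3, add_comm]

end Pool.Agent.Y487.NV
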