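import Pool.Agent.Y63.NV.Stm2
import Pool.Agent.Y63.AWC.Wt

/-!
# Weights and normal subgroups of index `p` (job NV2-PEW)
-/

set_option autoImplicit false

open scoped Classical

noncomputable section

namespace Pool.Agent.Y487.NV

open Pool.Agent.Y63.NV
open Pool.Agent.Y63.AWC (numDefectZero numWeights numDefectZero_congr card_mul_numWeights)

section hom

variable {p : ℕ} {J K : Type} [Group J] [Group K]

/-- defect zero characters of the image -/
theorem dz_range (ψ : J →* K) (S : Subgroup J) [S.Normal] (hS : S = ψ.ker) (X : Subgroup K)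
    (hX : X = ψ.range) : numDefectZero p (J ⧸ S) = numDefectZero p X := by
  subst hX
  exact numDefectZero_congr ((QuotientGroup.quotientMulEquivOfEq hS).trans
    (QuotientGroup.quotientKerEquivRange ψ))

theorem card_range [Finite J] (ψ : J →* K) (S : Subgroup J) (hS : S = ψ.ker) (X : Subgroup K)
    (hX : X = ψ.range) : Nat.card J = Nat.card S * Nat.card X := by
  subst hX hS
  rw [← Nat.card_congr (QuotientGroup.quotientKerEquivRange ψ).toEquiv,
    Subgroup.card_eq_card_quotient_mul_card_subgroup ψ.ker, mul_comm]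

/-- local counts and homomorphisms -/
theorem locz_comap [Finite J] (f : J →* K) (R' : Subgroup K)
    (h : Subgroup.normalizer (R' : Set K) ≤ f.range) :
    locz p (R'.comap f) = locz p R' ∧
      Nat.card (Subgroup.normalizer ((R'.comap f : Subgroup J) : Set J)) =
        Nat.card f.ker * Nat.card (Subgroup.normalizer (R' : Set K)) := by
  have hU := Subgroup.comap_normalizer_eq_of_le_range (f := f) (Subgroup.le_normalizer.trans h)
  have hUm : ∀ x : Subgroup.normalizer ((R'.comap f : Subgroup J) : Set J),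
      f x ∈ Subgroup.normalizer (R' : Set K) := by
    intro x
    have h1 : (x : J) ∈ (Subgroup.normalizer (R' : Set K)).comap f := by
      rw [hU]; exact x.2
    exact h1
  let φ : Subgroup.normalizer ((R'.comap f : Subgroup J) : Set J) →*
      Subgroup.normalizer (R' : Set K) :=
    (f.comp (Subgroup.subtype _)).codRestrict _ hUm
  have hφ : Function.Surjective φ := by
    rintro ⟨v, hv⟩
    obtain ⟨j, rfl⟩ := h hv
    have hj : j ∈ Subgroup.normalizer ((R'.comap f : Subgroup J) : Set J) := by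
      rw [← hU]; exact hv
    exact ⟨⟨j, hj⟩, rfl⟩
  have hker : f.ker ≤ Subgroup.normalizer ((R'.comap f : Subgroup J) : Set J) := by
    refine le_trans ?_ Subgroup.le_normalizer
    intro x hx
    rw [Subgroup.mem_comap, MonoidHom.mem_ker.1 hx]
    exact R'.one_mem
  constructor
  · let ψ := (QuotientGroup.mk' (R'.subgroupOf (Subgroup.normalizer (R' : Set K)))).comp φ
    have hψ : Function.Surjective ψ := (QuotientGroup.mk'_surjective _).comp hφ
    have hk : (R'.comap f).subgroupOf
        (Subgroup.normalizer ((R'.comap f : Subgroup J) : Set J)) = ψ.ker := by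
      ext x
      rw [MonoidHom.mem_ker, Subgroup.mem_subgroupOf]
      have h1 : ψ x = QuotientGroup.mk' (R'.subgroupOf (Subgroup.normalizer (R' : Set K)))
        (φ x) := rfl
      rw [h1, QuotientGroup.mk'_apply, QuotientGroup.eq_one_iff, Subgroup.mem_subgroupOf]
      rfl
    exact numDefectZero_congr ((QuotientGroup.quotientMulEquivOfEq hk).trans
      (QuotientGroup.quotientKerEquivOfSurjective ψ hψ))
  · have h1 := card_range φ φ.ker rfl ⊤ (MonoidHom.range_eq_top.2 hφ).symm
    rw [Subgroup.card_top] at h1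
    have h2 : φ.ker = f.ker.subgroupOf
        (Subgroup.normalizer ((R'.comap f : Subgroup J) : Set J)) := by
      ext x
      rw [MonoidHom.mem_ker, Subgroup.mem_subgroupOf, MonoidHom.mem_ker, Subtype.ext_iff]
      rfl
    rw [h1, h2, Nat.card_congr (Subgroup.subgroupOfEquivOfLe hker).toEquiv]

end hom

section prime

variable {Γ : Type} [Group Γ] [Finite Γ] (G : Subgroup Γ) [G.Normal] {p : ℕ}

theorem relIndex_eq (hp : p.Prime) (hG : Nat.card (Γ ⧸ G) = p) (N : Subgroup Γ) (hN : ¬ N ≤ G) :
    G.relIndex N = p := by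
  have h1 : G.relIndex N ∣ p := by
    rw [← hG]
    exact Subgroup.relIndex_dvd_index_of_normal G N
  rcases (Nat.dvd_prime hp).1 h1 with h2 | h2
  · exact absurd (Subgroup.relIndex_eq_one.1 h2) hN
  · exact h2

theorem sup_eq_top (hp : p.Prime) (hG : Nat.card (Γ ⧸ G) = p) (N : Subgroup Γ) (hN : ¬ N ≤ G) :
    G ⊔ N = ⊤ := by
  have h1 : (G ⊔ N).index ∣ G.index := Subgroup.index_dvd_of_le le_sup_left
  have h2 : G.index = p := hG
  rw [h2] at h1
  rcases (Nat.dvd_prime hp).1 h1 with h3 | h3
  · exact Subgroup.index_eq_one.1 h3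
  · exfalso
    apply hN
    have h4 : G = G ⊔ N := by
      apply Subgroup.eq_of_le_of_card_ge le_sup_left
      have h5 := Subgroup.card_mul_index G
      have h6 := Subgroup.card_mul_index (G ⊔ N)
      rw [h2] at h5
      rw [h3] at h6
      exact (Nat.eq_of_mul_eq_mul_right hp.pos (h5.trans h6.symm)).ge
    rw [h4]
    exact le_sup_right

end prime

section main

/-- the subgroups of a finite group -/
local instance fsub {Γ : Type} [Group Γ] [Finite Γ] : Fintype (Subgroup Γ) := Fintype.ofFinite _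

variable {Γ : Type} [Group Γ] [Finite Γ] {p : ℕ}

/-- the summand -/
def wt (p : ℕ) (Q : Subgroup Γ) : ℕ := Nat.card (Subgroup.normalizer (Q : Set Γ)) * locz p Q

/-- the local statement -/
theorem local_eq [Fact p.Prime] (h1 : S_DGN) (h2 : S_CLIF) (G : Subgroup Γ) [G.Normal]
    (hG : Nat.card (Γ ⧸ G) = p) (Q₁ : Subgroup G) (hQ₁ : IsPGroup p Q₁) :
    p * wt p (Q₁.map G.subtype) + (∑ R : Subgroup Γ,
      if IsPGroup p R ∧ G ⊔ R = ⊤ ∧ R.subgroupOf G = Q₁ then wt p R else 0) =
    p * wt p Q₁ := by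
  have hp : p.Prime := Fact.out
  have hGtop : G ≠ ⊤ := by
    intro h
    have h3 : G.index = p := hG
    rw [h, Subgroup.index_top] at h3
    exact hp.one_lt.ne h3
  obtain ⟨Q, hQ⟩ : ∃ Q : Subgroup Γ, Q = Q₁.map G.subtype := ⟨_, rfl⟩
  rw [← hQ]
  have hQG : Q ≤ G := by
    rw [hQ]
    exact Subgroup.map_subtype_le Q₁
  have hQcomap : Q.comap G.subtype = Q₁ := by
    rw [hQ]
    exact Subgroup.comap_map_eq_self_of_injective (Subgroup.subtype_injective G) Q₁
  have hQp : IsPGroup p Q := by
    rw [hQ]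
    exact hQ₁.map _
  have hmemQ : ∀ x : G, (x : Γ) ∈ Q ↔ x ∈ Q₁ := by
    intro x
    rw [← hQcomap]
    rfl
  -- the subgroups `R` with `R ∩ G = Q`
  have hRQ : ∀ R : Subgroup Γ, R.subgroupOf G = Q₁ → ∀ x : Γ, x ∈ Q ↔ x ∈ R ∧ x ∈ G := by
    intro R hR x
    constructor
    · intro hx
      have h3 : (⟨x, hQG hx⟩ : G) ∈ Q₁ := (hmemQ ⟨x, hQG hx⟩).1 hx
      rw [← hR] at h3
      exact ⟨h3, hQG hx⟩
    · rintro ⟨hx, hxG⟩
      have h3 : (⟨x, hxG⟩ : G) ∈ R.subgroupOf G := hx
      rw [hR] at h3
      exact (hmemQ ⟨x, hxG⟩).2 h3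
  have hNR : ∀ R : Subgroup Γ, R.subgroupOf G = Q₁ →
      Subgroup.normalizer (R : Set Γ) ≤ Subgroup.normalizer (Q : Set Γ) := by
    intro R hR x hx
    rw [Subgroup.mem_normalizer_iff] at hx ⊢
    intro h
    rw [hRQ R hR, hRQ R hR]
    refine and_congr (hx h) ⟨fun h3 => (inferInstance : G.Normal).conj_mem h h3 x, fun h3 => ?_⟩
    have h4 := (inferInstance : G.Normal).conj_mem _ h3 x⁻¹
    have h5 : x⁻¹ * (x * h * x⁻¹) * x⁻¹⁻¹ = h := by group
    rwa [h5] at h4
  by_cases hN : Subgroup.normalizer (Q : Set Γ) ≤ G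
  · -- no subgroups `R`
    have h0 : (∑ R : Subgroup Γ,
        if IsPGroup p R ∧ G ⊔ R = ⊤ ∧ R.subgroupOf G = Q₁ then wt p R else 0) = 0 := by
      refine Finset.sum_eq_zero fun R _ => if_neg ?_
      rintro ⟨-, hR2, hR3⟩
      have h3 : R ≤ G := (Subgroup.le_normalizer.trans (hNR R hR3)).trans hN
      rw [sup_eq_left.2 h3] at hR2
      exact hGtop hR2
    have h3 := locz_comap (p := p) G.subtype Q (by rw [Subgroup.range_subtype]; exact hN)
    rw [hQcomap, Subgroup.ker_subtype, Subgroup.card_bot, one_mul] at h3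
    rw [h0, add_zero]
    unfold wt
    rw [h3.1, h3.2]
  · -- the quotient
    obtain ⟨N, hNdef⟩ : ∃ N : Subgroup Γ, N = Subgroup.normalizer (Q : Set Γ) := ⟨_, rfl⟩
    rw [← hNdef] at hN
    have hQN : Q ≤ N := by rw [hNdef]; exact Subgroup.le_normalizer
    have hnorm : (Q.subgroupOf N).Normal := by
      subst hNdef
      infer_instance
    have hwQ : wt p Q = Nat.card N * numDefectZero p (N ⧸ Q.subgroupOf N) := by
      subst hNdef
      rfl
    obtain ⟨π, hπ⟩ : ∃ π : N →* N ⧸ Q.subgroupOf N, π = QuotientGroup.mk' (Q.subgroupOf N) :=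
      ⟨_, rfl⟩
    have hπs : Function.Surjective π := by
      rw [hπ]; exact QuotientGroup.mk'_surjective _
    have hπr : π.range = ⊤ := MonoidHom.range_eq_top.2 hπs
    have hπk : π.ker = Q.subgroupOf N := by
      rw [hπ]; exact QuotientGroup.ker_mk' _
    have hπ1 : ∀ x : N, π x = 1 ↔ (x : Γ) ∈ Q := by
      intro x
      rw [← MonoidHom.mem_ker, hπk, Subgroup.mem_subgroupOf]
    have hcardQ : Nat.card (Q.subgroupOf N) = Nat.card Q :=
      Nat.card_congr (Subgroup.subgroupOfEquivOfLe hQN).toEquiv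
    -- the image of `G ∩ N`
    obtain ⟨X, hX⟩ : ∃ X : Subgroup (N ⧸ Q.subgroupOf N), X = (G.subgroupOf N).map π := ⟨_, rfl⟩
    have hXn : X.Normal := by
      rw [hX]
      exact Subgroup.Normal.map inferInstance π hπs
    have hXm : ∀ x : N, π x ∈ X ↔ (x : Γ) ∈ G := by
      intro x
      rw [hX]
      constructor
      · rintro ⟨y, hy, hyx⟩
        have h3 : π (y⁻¹ * x) = 1 := by rw [map_mul, map_inv, hyx, inv_mul_cancel]
        have h4 : ((y⁻¹ * x : N) : Γ) ∈ G := hQG ((hπ1 _).1 h3)
        have h5 : (y : Γ) ∈ G := hy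
        have h6 := G.mul_mem h5 h4
        have h7 : (y : Γ) * ((y⁻¹ * x : N) : Γ) = x := by
          push_cast
          group
        rwa [h7] at h6
      · intro hx
        exact ⟨x, hx, rfl⟩
    have hXc : X.comap π = G.subgroupOf N := by
      ext x
      rw [Subgroup.mem_comap, hXm, Subgroup.mem_subgroupOf]
    have hXidx : Nat.card ((N ⧸ Q.subgroupOf N) ⧸ X) = p := by
      have h3 : (X.comap π).index = X.index := Subgroup.index_comap_of_surjective X hπs
      rw [hXc] at h3
      have h4 : X.index = p := by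
        rw [← h3]
        exact relIndex_eq G hp hG N hN
      exact h4
    have hXp : IsPGroup p ((N ⧸ Q.subgroupOf N) ⧸ X) := IsPGroup.of_card (n := 1) (by
      rw [hXidx, pow_one])
    have hcardN : Nat.card N = Nat.card Q * Nat.card (N ⧸ Q.subgroupOf N) := by
      rw [Subgroup.card_eq_card_quotient_mul_card_subgroup (Q.subgroupOf N), hcardQ, mul_comm]
    have hcardY : Nat.card (N ⧸ Q.subgroupOf N) = p * Nat.card X := by
      rw [Subgroup.card_eq_card_quotient_mul_card_subgroup X, hXidx]
    -- the group `N_G(Q) / Q`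
    have hA : ∀ x : Subgroup.normalizer (Q₁ : Set G), ((x : G) : Γ) ∈ N := by
      intro x
      have h3 := Subgroup.comap_normalizer_eq_of_le_range (f := G.subtype) (H := Q)
        (by rw [Subgroup.range_subtype]; exact hQG)
      rw [hQcomap] at h3
      have h4 : (x : G) ∈ (Subgroup.normalizer (Q : Set Γ)).comap G.subtype := by
        rw [h3]; exact x.2
      rw [hNdef]
      exact h4
    have hA' : ∀ x : G, (x : Γ) ∈ N → x ∈ Subgroup.normalizer (Q₁ : Set G) := by
      intro x hx
      have h3 := Subgroup.comap_normalizer_eq_of_le_range (f := G.subtype) (H := Q)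
        (by rw [Subgroup.range_subtype]; exact hQG)
      rw [hQcomap] at h3
      rw [← h3, ← hNdef]
      exact hx
    obtain ⟨ψ, hψ⟩ : ∃ ψ : Subgroup.normalizer (Q₁ : Set G) →* N ⧸ Q.subgroupOf N,
        ∀ x, ψ x = π ⟨(x : G), hA x⟩ :=
      ⟨π.comp ((G.subtype.comp (Subgroup.subtype _)).codRestrict N hA), fun x => rfl⟩
    have hψk : Q₁.subgroupOf (Subgroup.normalizer (Q₁ : Set G)) = ψ.ker := by
      ext x
      rw [MonoidHom.mem_ker, hψ, hπ1, Subgroup.mem_subgroupOf]
      exact (hmemQ x).symm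
    have hψr : X = ψ.range := by
      ext y
      constructor
      · intro hy
        obtain ⟨n, rfl⟩ := hπs y
        rw [hXm] at hy
        exact ⟨⟨⟨n, hy⟩, hA' _ n.2⟩, hψ _⟩
      · rintro ⟨x, rfl⟩
        rw [hψ, hXm]
        exact (x : G).2
    have hdzX : locz p Q₁ = numDefectZero p X :=
      dz_range ψ (Q₁.subgroupOf (Subgroup.normalizer (Q₁ : Set G))) hψk X hψr
    have hcardA : Nat.card (Subgroup.normalizer (Q₁ : Set G)) = Nat.card Q * Nat.card X := by
      have hcQ : Nat.card Q₁ = Nat.card Q := by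
        rw [hQ]
        exact Nat.card_congr
          (Q₁.equivMapOfInjective G.subtype (Subgroup.subtype_injective G)).toEquiv
      rw [card_range ψ _ hψk X hψr,
        Nat.card_congr (Subgroup.subgroupOfEquivOfLe Subgroup.le_normalizer).toEquiv, hcQ]
    have hclif := h2 p (N ⧸ Q.subgroupOf N) X hXidx
    have hdgn := h1 p (N ⧸ Q.subgroupOf N) X hXp
    -- the sum over the complements
    have hsum : (∑ R : Subgroup Γ,
        if IsPGroup p R ∧ G ⊔ R = ⊤ ∧ R.subgroupOf G = Q₁ then wt p R else 0) =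
        Nat.card Q * ∑ R' : Subgroup (N ⧸ Q.subgroupOf N),
          if IsPGroup p R' ∧ X ⊔ R' = ⊤ ∧ X ⊓ R' = ⊥ then
            Nat.card (Subgroup.normalizer (R' : Set (N ⧸ Q.subgroupOf N))) * locz p R' else 0 := by
      rw [Finset.mul_sum, ← Finset.sum_filter]
      have h3 : ∀ R' : Subgroup (N ⧸ Q.subgroupOf N), Nat.card Q *
          (if IsPGroup p R' ∧ X ⊔ R' = ⊤ ∧ X ⊓ R' = ⊥ then
            Nat.card (Subgroup.normalizer (R' : Set (N ⧸ Q.subgroupOf N))) * locz p R' else 0) =
          if IsPGroup p R' ∧ X ⊔ R' = ⊤ ∧ X ⊓ R' = ⊥ then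
            Nat.card Q * (Nat.card (Subgroup.normalizer (R' : Set (N ⧸ Q.subgroupOf N))) *
              locz p R') else 0 := fun R' => by
        rw [mul_ite, mul_zero]
      rw [Finset.sum_congr rfl fun R' _ => h3 R', ← Finset.sum_filter]
      have hfix : ∀ R : Subgroup Γ, R.subgroupOf G = Q₁ →
          ((R.subgroupOf N).map π).comap π = R.subgroupOf N := by
        intro R hR
        rw [Subgroup.comap_map_eq, hπk, sup_eq_left]
        intro x hx
        exact ((hRQ R hR _).1 hx).1
      have hRN : ∀ R : Subgroup Γ, R.subgroupOf G = Q₁ → R ≤ N := by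
        intro R hR
        rw [hNdef]
        exact Subgroup.le_normalizer.trans (hNR R hR)
      refine Finset.sum_nbij' (fun R => (R.subgroupOf N).map π)
        (fun R' => (R'.comap π).map N.subtype) ?_ ?_ ?_ ?_ ?_
      · intro R hR
        rw [Finset.mem_filter] at hR ⊢
        obtain ⟨-, hR1, hR2, hR3⟩ := hR
        refine ⟨Finset.mem_univ _, IsPGroup.map (IsPGroup.comap_subtype hR1) π, ?_, ?_⟩
        · rw [eq_top_iff]
          intro y _
          obtain ⟨n, rfl⟩ := hπs y
          have h4 : (n : Γ) ∈ ((G ⊔ R : Subgroup Γ) : Set Γ) := by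
            rw [hR2]; exact Subgroup.mem_top _
          rw [Subgroup.normal_mul, Set.mem_mul] at h4
          obtain ⟨g, hg, r, hr, hgr⟩ := h4
          have hrN : r ∈ N := hRN R hR3 hr
          have hgN : g ∈ N := by
            have : g = (n : Γ) * r⁻¹ := by rw [← hgr]; group
            rw [this]
            exact N.mul_mem n.2 (N.inv_mem hrN)
          have h5 : n = ⟨g, hgN⟩ * ⟨r, hrN⟩ := Subtype.ext hgr.symm
          rw [h5, map_mul]
          exact Subgroup.mul_mem_sup ((hXm _).2 hg) ⟨⟨r, hrN⟩, hr, rfl⟩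
        · rw [eq_bot_iff]
          intro y hy
          obtain ⟨hy1, hy2⟩ := hy
          obtain ⟨r, hr, rfl⟩ := hy2
          have hy3 : (r : Γ) ∈ G := (hXm r).1 hy1
          rw [Subgroup.mem_bot, hπ1, hRQ R hR3]
          exact ⟨hr, hy3⟩
      · intro R' hR'
        rw [Finset.mem_filter] at hR' ⊢
        obtain ⟨-, hR1, hR2, hR3⟩ := hR'
        have hker : IsPGroup p π.ker := by
          rw [hπk]
          exact IsPGroup.comap_subtype hQp
        refine ⟨Finset.mem_univ _, IsPGroup.map (IsPGroup.comap_of_ker_isPGroup hR1 π hker) _,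
          ?_, ?_⟩
        · apply sup_eq_top G hp hG
          intro hle
          have h4 : R' ≤ X := by
            intro y hy
            obtain ⟨n, rfl⟩ := hπs y
            rw [hXm]
            exact hle ⟨n, hy, rfl⟩
          rw [sup_eq_left.2 h4] at hR2
          apply hN
          intro x hx
          have h5 : π ⟨x, hx⟩ ∈ X := by rw [hR2]; exact Subgroup.mem_top _
          exact (hXm ⟨x, hx⟩).1 h5
        · ext x
          rw [Subgroup.mem_subgroupOf]
          constructor
          · rintro ⟨n, hn, hnx⟩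
            have hnx' : (n : Γ) = (x : Γ) := hnx
            have h4 : π n ∈ X ⊓ R' := ⟨(hXm n).2 (by rw [hnx']; exact x.2), hn⟩
            rw [hR3, Subgroup.mem_bot, hπ1, hnx', hmemQ] at h4
            exact h4
          · intro hx
            have h4 : (x : Γ) ∈ Q := (hmemQ x).2 hx
            refine ⟨⟨x, hQN h4⟩, ?_, rfl⟩
            have h5 : π ⟨x, hQN h4⟩ = 1 := (hπ1 _).2 h4
            rw [SetLike.mem_coe, Subgroup.mem_comap, h5]
            exact R'.one_mem
      · intro R hR
        rw [Finset.mem_filter] at hR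
        obtain ⟨-, hR1, hR2, hR3⟩ := hR
        rw [hfix R hR3, Subgroup.subgroupOf_map_subtype, inf_eq_left]
        exact hRN R hR3
      · intro R' _
        have h4 : ((R'.comap π).map N.subtype).subgroupOf N = R'.comap π :=
          Subgroup.comap_map_eq_self_of_injective (Subgroup.subtype_injective N) _
        rw [h4, Subgroup.map_comap_eq_self_of_surjective hπs]
      · intro R hR
        rw [Finset.mem_filter] at hR
        obtain ⟨-, hR1, hR2, hR3⟩ := hR
        have h4 := locz_comap (p := p) N.subtype R (by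
          rw [Subgroup.range_subtype, hNdef]; exact hNR R hR3)
        have h5 := locz_comap (p := p) π ((R.subgroupOf N).map π) (by
          rw [hπr]; exact le_top)
        rw [hfix R hR3] at h5
        rw [Subgroup.ker_subtype, Subgroup.card_bot, one_mul] at h4
        have h6 : R.comap N.subtype = R.subgroupOf N := rfl
        rw [h6] at h4
        unfold wt
        rw [← h4.1, ← h4.2, h5.1, h5.2, hπk, hcardQ, mul_assoc]
    rw [finsum_eq_sum_of_fintype] at hdgn
    rw [hsum, ← hdgn, hwQ]
    unfold wt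
    rw [hdzX, ← hclif, hcardA, hcardN, hcardY]
    ring

/-- weights and normal subgroups of index `p` -/
theorem pew (h1 : S_DGN) (h2 : S_CLIF) : S_PEW := by
  intro p _ Γ _ _ G _ hG
  have hp : p.Prime := Fact.out
  have hGtop : G ≠ ⊤ := by
    intro h
    have h3 : G.index = p := hG
    rw [h, Subgroup.index_top] at h3
    exact hp.one_lt.ne h3
  have e1 : Nat.card Γ * numWeights p Γ =
      ∑ Q : Subgroup Γ, if IsPGroup p Q then wt p Q else 0 := by
    rw [card_mul_numWeights, finsum_eq_sum_of_fintype, ← Finset.sum_filter]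
    exact (Finset.sum_subtype (Finset.univ.filter fun Q : Subgroup Γ => IsPGroup p Q)
      (by simp) (fun Q => wt p Q)).symm
  have e2 : Nat.card G * numWeights p G =
      ∑ Q₁ : Subgroup G, if IsPGroup p Q₁ then wt p Q₁ else 0 := by
    rw [card_mul_numWeights, finsum_eq_sum_of_fintype, ← Finset.sum_filter]
    exact (Finset.sum_subtype (Finset.univ.filter fun Q : Subgroup G => IsPGroup p Q)
      (by simp) (fun Q => wt p Q)).symm
  have e3 : covW p G = ∑ Q : Subgroup Γ, if IsPGroup p Q ∧ G ⊔ Q = ⊤ then wt p Q else 0 := by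
    unfold covW
    rw [finsum_eq_sum_of_fintype]
    rfl
  -- splitting
  have e4 : (∑ Q : Subgroup Γ, if IsPGroup p Q then wt p Q else 0) = covW p G +
      ∑ Q : Subgroup Γ, if IsPGroup p Q ∧ Q ≤ G then wt p Q else 0 := by
    rw [e3, ← Finset.sum_add_distrib]
    refine Finset.sum_congr rfl fun Q _ => ?_
    by_cases hQ : IsPGroup p Q
    · by_cases hQG : Q ≤ G
      · have h3 : ¬ G ⊔ Q = ⊤ := by
          rw [sup_eq_left.2 hQG]
          exact hGtop
        rw [if_pos hQ, if_neg fun h => h3 h.2, if_pos ⟨hQ, hQG⟩, zero_add]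
      · rw [if_pos hQ, if_pos ⟨hQ, sup_eq_top G hp hG Q hQG⟩, if_neg fun h => hQG h.2, add_zero]
    · rw [if_neg hQ, if_neg fun h => hQ h.1, if_neg fun h => hQ h.1]
  have e5 : (∑ Q : Subgroup Γ, if IsPGroup p Q ∧ Q ≤ G then wt p Q else 0) =
      ∑ Q₁ : Subgroup G, if IsPGroup p Q₁ then wt p (Q₁.map G.subtype) else 0 := by
    rw [← Finset.sum_filter, ← Finset.sum_filter]
    refine Finset.sum_nbij' (fun Q => Q.subgroupOf G) (fun Q₁ => Q₁.map G.subtype) ?_ ?_ ?_ ?_ ?_
    · intro Q hQ
      rw [Finset.mem_filter] at hQ ⊢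
      exact ⟨Finset.mem_univ _, IsPGroup.comap_subtype hQ.2.1⟩
    · intro Q₁ hQ₁
      rw [Finset.mem_filter] at hQ₁ ⊢
      exact ⟨Finset.mem_univ _, hQ₁.2.map _, Subgroup.map_subtype_le Q₁⟩
    · intro Q hQ
      rw [Finset.mem_filter] at hQ
      rw [Subgroup.subgroupOf_map_subtype, inf_eq_left]
      exact hQ.2.2
    · intro Q₁ _
      exact Subgroup.comap_map_eq_self_of_injective (Subgroup.subtype_injective G) Q₁
    · intro Q hQ
      rw [Finset.mem_filter] at hQ
      have h3 : (Q.subgroupOf G).map G.subtype = Q := by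
        rw [Subgroup.subgroupOf_map_subtype, inf_eq_left]
        exact hQ.2.2
      rw [h3]
  -- the sum over `R`
  have e6 : covW p G = ∑ Q₁ : Subgroup G, if IsPGroup p Q₁ then (∑ R : Subgroup Γ,
      if IsPGroup p R ∧ G ⊔ R = ⊤ ∧ R.subgroupOf G = Q₁ then wt p R else 0) else 0 := by
    rw [e3, ← Finset.sum_filter, ← Finset.sum_filter]
    rw [← Finset.sum_fiberwise_of_maps_to (s := Finset.univ.filter fun Q : Subgroup Γ =>
      IsPGroup p Q ∧ G ⊔ Q = ⊤) (t := Finset.univ.filter fun Q₁ : Subgroup G => IsPGroup p Q₁)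
      (g := fun R => R.subgroupOf G) (by
        intro R hR
        rw [Finset.mem_filter] at hR ⊢
        exact ⟨Finset.mem_univ _, IsPGroup.comap_subtype hR.2.1⟩)]
    refine Finset.sum_congr rfl fun Q₁ _ => ?_
    rw [Finset.filter_filter, ← Finset.sum_filter]
    refine Finset.sum_congr ?_ fun _ _ => rfl
    ext R
    simp only [Finset.mem_filter, Finset.mem_univ, true_and]
    tauto
  have e7 : p * (∑ Q₁ : Subgroup G, if IsPGroup p Q₁ then wt p (Q₁.map G.subtype) else 0) +
      covW p G = p * (Nat.card G * numWeights p G) := by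
    rw [e6, e2, Finset.mul_sum, Finset.mul_sum, ← Finset.sum_add_distrib]
    refine Finset.sum_congr rfl fun Q₁ _ => ?_
    by_cases hQ₁ : IsPGroup p Q₁
    · rw [if_pos hQ₁, if_pos hQ₁, if_pos hQ₁]
      exact local_eq h1 h2 G hG Q₁ hQ₁
    · rw [if_neg hQ₁, if_neg hQ₁, if_neg hQ₁, mul_zero, add_zero]
  have e8 : Nat.card Γ = p * Nat.card G := by
    rw [Subgroup.card_eq_card_quotient_mul_card_subgroup G, hG]
  rw [e1, e4, e5, mul_add, e8, mul_assoc, ← e7]
  obtain ⟨q, rfl⟩ : ∃ q, p = q + 1 := ⟨p - 1, by have := hp.pos; omega⟩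
  rw [Nat.add_sub_cancel]
  ring

end main

end Pool.Agent.Y487.NV
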