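import Pool.Agent.Y63.NV.Stm4
import Pool.Agent.Y930.NV.Cen
import Pool.Agent.Y210.NV2.NQ
import Pool.Agent.Y487.NV.Pew

/-!
# Labelled weights and normal subgroups of index `p` (job NV4-PEWL)
-/

set_option autoImplicit false

open scoped Classical

noncomputable section

namespace Pool.Agent.Y487.NV

open Pool.Agent.Y63.NV
open Pool.Agent.Y210.NV3 (nw_comap card_comap)

section gen

variable {F N Y A : Type} [Field F] [Group N] [Group Y] [Group A] [Finite N] [Finite A]

/-- the sum over the fibres -/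
def fib (π : N →* Y) (zN : N → F) (y : Y) : F := ∑ᶠ n : N, if π n = y then zN n else 0

theorem comap_eq_range (π : N →* Y) (j : A →* N) (V : Subgroup Y)
    (hV : ∀ n, π n ∈ V ↔ n ∈ j.range) : V.comap π = j.range := by
  ext n
  rw [Subgroup.mem_comap, hV]

theorem nw_gen (p : ℕ) (red : integralClosure ℤ ℂ →+* F) (π : N →* Y)
    (hπ : Function.Surjective π) (zN : N → F) (j : A →* N) (hj : Function.Injective j)
    (V : Subgroup Y) (hV : ∀ n, π n ∈ V ↔ n ∈ j.range) (S : Subgroup A) (T : Subgroup V)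
    (hST : ∀ (a : A) (h : π (j a) ∈ V), a ∈ S ↔ (⟨π (j a), h⟩ : V) ∈ T) (fA : A → F)
    (hfA : ∀ a, fA a = zN (j a)) (hcl : IsClassFun fA) (c : F) :
    Nw p red S fA c = Nw p red T (fun y : V => fib π zN y) c := by
  let φ : A →* V := (π.comp j).codRestrict V (fun a => (hV _).2 ⟨a, rfl⟩)
  have hφ : Function.Surjective φ := by
    rintro ⟨v, hv⟩
    obtain ⟨n, rfl⟩ := hπ v
    obtain ⟨a, rfl⟩ := (hV n).1 hv
    exact ⟨a, rfl⟩
  have hS : S = T.comap φ := by
    ext a
    exact hST a ((hV _).2 ⟨a, rfl⟩)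
  rw [hS, nw_comap φ hφ Pool.Agent.Y930.NV.inf p red T fA hcl c]
  congr 1
  funext y
  unfold fib
  have e1 : ∀ n : N, (if π n = (y : Y) then zN n else 0) =
      ∑ᶠ (_ : n ∈ Set.range j), (if π n = (y : Y) then zN n else 0) := by
    intro n
    rw [finsum_eq_if]
    by_cases hn : n ∈ Set.range j
    · rw [if_pos hn]
    · rw [if_neg hn, if_neg]
      intro h
      apply hn
      have h2 : π n ∈ V := by rw [h]; exact y.2
      exact (hV n).1 h2
  rw [finsum_congr e1, finsum_mem_range hj]
  refine finsum_congr fun a => ?_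
  have h3 : φ a = y ↔ π (j a) = (y : Y) := Subtype.ext_iff
  rw [hfA]
  by_cases h4 : φ a = y
  · rw [if_pos h4, if_pos (h3.1 h4)]
  · rw [if_neg h4, if_neg fun h5 => h4 (h3.2 h5)]

theorem card_gen (π : N →* Y) (hπ : Function.Surjective π) (j : A →* N)
    (hj : Function.Injective j) (V : Subgroup Y) (hV : ∀ n, π n ∈ V ↔ n ∈ j.range) :
    Nat.card A = Nat.card π.ker * Nat.card V := by
  rw [← card_comap π hπ V, comap_eq_range π j V hV]
  exact Nat.card_congr (MonoidHom.ofInjective hj).toEquiv

end gen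

section main

/-- the subgroups of a finite group -/
local instance fsubL {Γ : Type} [Group Γ] [Finite Γ] : Fintype (Subgroup Γ) := Fintype.ofFinite _

variable {F Γ : Type} [Field F] [Group Γ] [Finite Γ] {p : ℕ}

/-- the summand -/
def wl (p : ℕ) (red : integralClosure ℤ ℂ →+* F) (z : Γ → F) (c : F) (Q : Subgroup Γ) : ℕ :=
  Nat.card (Subgroup.normalizer (Q : Set Γ)) *
    Nw p red (Q.subgroupOf (Subgroup.normalizer (Q : Set Γ))) (fun x => z x) c

/-- the local statement -/
theorem local_eqL [Fact p.Prime] [CharP F p] (h1 : S_DGNL) (h2 : S_CLIFL)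
    (red : integralClosure ℤ ℂ →+* F) (G : Subgroup Γ) [G.Normal] (z : Γ → F) (c : F)
    (hz : InZ G z) (hG : Nat.card (Γ ⧸ G) = p) (Q₁ : Subgroup G) (hQ₁ : IsPGroup p Q₁) :
    p * wl p red z c (Q₁.map G.subtype) + (∑ R : Subgroup Γ,
      if IsPGroup p R ∧ G ⊔ R = ⊤ ∧ R.subgroupOf G = Q₁ then wl p red z c R else 0) =
    p * wl p red (fun x : G => z x) c Q₁ := by
  have hp : p.Prime := Fact.out
  have hGtop : G ≠ ⊤ := by
    intro h
    have h3 : G.index = p := hG
    rw [h, Subgroup.index_top] at h3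
    exact hp.one_lt.ne h3
  obtain ⟨Q, hQ⟩ : ∃ Q : Subgroup Γ, Q = Q₁.map G.subtype := ⟨_, rfl⟩
  rw [← hQ]
  have hQG : Q ≤ G := by
    rw [hQ]
    exact Subgroup.map_subtype_le Q₁
  have hQcomap : Q.comap G.subtype = Q₁ := by
    rw [hQ]
    exact Subgroup.comap_map_eq_self_of_injective (Subgroup.subtype_injective G) Q₁
  have hQp : IsPGroup p Q := by
    rw [hQ]
    exact hQ₁.map _
  have hmemQ : ∀ x : G, (x : Γ) ∈ Q ↔ x ∈ Q₁ := by
    intro x
    rw [← hQcomap]
    rfl
  -- the subgroups `R` with `R ∩ G = Q`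
  have hRQ : ∀ R : Subgroup Γ, R.subgroupOf G = Q₁ → ∀ x : Γ, x ∈ Q ↔ x ∈ R ∧ x ∈ G := by
    intro R hR x
    constructor
    · intro hx
      have h3 : (⟨x, hQG hx⟩ : G) ∈ Q₁ := (hmemQ ⟨x, hQG hx⟩).1 hx
      rw [← hR] at h3
      exact ⟨h3, hQG hx⟩
    · rintro ⟨hx, hxG⟩
      have h3 : (⟨x, hxG⟩ : G) ∈ R.subgroupOf G := hx
      rw [hR] at h3
      exact (hmemQ ⟨x, hxG⟩).2 h3
  have hNR : ∀ R : Subgroup Γ, R.subgroupOf G = Q₁ →
      Subgroup.normalizer (R : Set Γ) ≤ Subgroup.normalizer (Q : Set Γ) := by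
    intro R hR x hx
    rw [Subgroup.mem_normalizer_iff] at hx ⊢
    intro h
    rw [hRQ R hR, hRQ R hR]
    refine and_congr (hx h) ⟨fun h3 => (inferInstance : G.Normal).conj_mem h h3 x, fun h3 => ?_⟩
    have h4 := (inferInstance : G.Normal).conj_mem _ h3 x⁻¹
    have h5 : x⁻¹ * (x * h * x⁻¹) * x⁻¹⁻¹ = h := by group
    rwa [h5] at h4
  have hAG := Subgroup.comap_normalizer_eq_of_le_range (f := G.subtype) (H := Q)
    (by rw [Subgroup.range_subtype]; exact hQG)
  rw [hQcomap] at hAG
  have hA0 : ∀ x : G, x ∈ Subgroup.normalizer (Q₁ : Set G) ↔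
      (x : Γ) ∈ Subgroup.normalizer (Q : Set Γ) := by
    intro x
    rw [← hAG]
    rfl
  by_cases hN : Subgroup.normalizer (Q : Set Γ) ≤ G
  · -- no subgroups `R`
    have h0 : (∑ R : Subgroup Γ,
        if IsPGroup p R ∧ G ⊔ R = ⊤ ∧ R.subgroupOf G = Q₁ then wl p red z c R else 0) = 0 := by
      refine Finset.sum_eq_zero fun R _ => if_neg ?_
      rintro ⟨-, hR2, hR3⟩
      have h3 : R ≤ G := (Subgroup.le_normalizer.trans (hNR R hR3)).trans hN
      rw [sup_eq_left.2 h3] at hR2
      exact hGtop hR2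
    obtain ⟨j, hj⟩ : ∃ j : Subgroup.normalizer (Q₁ : Set G) →* Γ, ∀ x, j x = ((x : G) : Γ) :=
      ⟨G.subtype.comp (Subgroup.subtype _), fun x => rfl⟩
    have hji : Function.Injective j := by
      intro x y hxy
      rw [hj, hj] at hxy
      exact Subtype.ext (Subtype.ext hxy)
    have hV : ∀ n : Γ, (MonoidHom.id Γ) n ∈ Subgroup.normalizer (Q : Set Γ) ↔ n ∈ j.range := by
      intro n
      rw [MonoidHom.id_apply]
      constructor
      · intro hn
        exact ⟨⟨⟨n, hN hn⟩, (hA0 _).2 hn⟩, hj _⟩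
      · rintro ⟨x, rfl⟩
        rw [hj]
        exact (hA0 _).1 x.2
    have hs : Function.Surjective (MonoidHom.id Γ) := Function.surjective_id
    have e1 := card_gen (MonoidHom.id Γ) hs j hji _ hV
    have e2 := nw_gen p red (MonoidHom.id Γ) hs z j hji _ hV
      (Q₁.subgroupOf (Subgroup.normalizer (Q₁ : Set G)))
      (Q.subgroupOf (Subgroup.normalizer (Q : Set Γ))) (by
        intro a h
        rw [Subgroup.mem_subgroupOf, Subgroup.mem_subgroupOf]
        change _ ↔ j a ∈ Q
        rw [hj, hmemQ]) (fun x => z x) (fun a => by rw [hj]) (fun g x => by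
        exact hz.conj _ _) c
    have e3 : ∀ y : Γ, fib (MonoidHom.id Γ) z y = z y := by
      intro y
      unfold fib
      rw [finsum_eq_single _ y]
      · rw [if_pos (MonoidHom.id_apply Γ y)]
      · intro x hx
        rw [if_neg]
        rw [MonoidHom.id_apply]
        exact hx
    simp only [e3] at e2
    have e4 : (MonoidHom.id Γ).ker = ⊥ := by
      rw [MonoidHom.ker_eq_bot_iff]
      exact Function.injective_id
    rw [e4, Subgroup.card_bot, one_mul] at e1
    rw [h0, add_zero]
    unfold wl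
    rw [e2, e1]
  · -- the quotient
    obtain ⟨N, hNdef⟩ : ∃ N : Subgroup Γ, N = Subgroup.normalizer (Q : Set Γ) := ⟨_, rfl⟩
    rw [← hNdef] at hN hA0
    have hQN : Q ≤ N := by rw [hNdef]; exact Subgroup.le_normalizer
    have hnorm : (Q.subgroupOf N).Normal := by
      subst hNdef
      infer_instance
    have hwQ : wl p red z c Q = Nat.card N * Nw p red (Q.subgroupOf N) (fun x => z x) c := by
      subst hNdef
      rfl
    obtain ⟨π, hπ⟩ : ∃ π : N →* N ⧸ Q.subgroupOf N, π = QuotientGroup.mk' (Q.subgroupOf N) :=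
      ⟨_, rfl⟩
    have hπs : Function.Surjective π := by
      rw [hπ]; exact QuotientGroup.mk'_surjective _
    have hπr : π.range = ⊤ := MonoidHom.range_eq_top.2 hπs
    have hπk : π.ker = Q.subgroupOf N := by
      rw [hπ]; exact QuotientGroup.ker_mk' _
    have hπ1 : ∀ x : N, π x = 1 ↔ (x : Γ) ∈ Q := by
      intro x
      rw [← MonoidHom.mem_ker, hπk, Subgroup.mem_subgroupOf]
    have hcardQ : Nat.card (Q.subgroupOf N) = Nat.card Q :=
      Nat.card_congr (Subgroup.subgroupOfEquivOfLe hQN).toEquiv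
    -- the image of `G ∩ N`
    obtain ⟨X, hX⟩ : ∃ X : Subgroup (N ⧸ Q.subgroupOf N), X = (G.subgroupOf N).map π := ⟨_, rfl⟩
    have hXn : X.Normal := by
      rw [hX]
      exact Subgroup.Normal.map inferInstance π hπs
    have hXm : ∀ x : N, π x ∈ X ↔ (x : Γ) ∈ G := by
      intro x
      rw [hX]
      constructor
      · rintro ⟨y, hy, hyx⟩
        have h3 : π (y⁻¹ * x) = 1 := by rw [map_mul, map_inv, hyx, inv_mul_cancel]
        have h4 : ((y⁻¹ * x : N) : Γ) ∈ G := hQG ((hπ1 _).1 h3)
        have h5 : (y : Γ) ∈ G := hy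
        have h6 := G.mul_mem h5 h4
        have h7 : (y : Γ) * ((y⁻¹ * x : N) : Γ) = x := by
          push_cast
          group
        rwa [h7] at h6
      · intro hx
        exact ⟨x, hx, rfl⟩
    have hXc : X.comap π = G.subgroupOf N := by
      ext x
      rw [Subgroup.mem_comap, hXm, Subgroup.mem_subgroupOf]
    have hXidx : Nat.card ((N ⧸ Q.subgroupOf N) ⧸ X) = p := by
      have h3 : (X.comap π).index = X.index := Subgroup.index_comap_of_surjective X hπs
      rw [hXc] at h3
      have h4 : X.index = p := by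
        rw [← h3]
        exact relIndex_eq G hp hG N hN
      exact h4
    have hXp : IsPGroup p ((N ⧸ Q.subgroupOf N) ⧸ X) := IsPGroup.of_card (n := 1) (by
      rw [hXidx, pow_one])
    have hcardN : Nat.card N = Nat.card Q * Nat.card (N ⧸ Q.subgroupOf N) := by
      rw [Subgroup.card_eq_card_quotient_mul_card_subgroup (Q.subgroupOf N), hcardQ, mul_comm]
    have hcardY : Nat.card (N ⧸ Q.subgroupOf N) = p * Nat.card X := by
      rw [Subgroup.card_eq_card_quotient_mul_card_subgroup X, hXidx]
    -- the label function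
    obtain ⟨zY, hzY⟩ : ∃ zY : N ⧸ Q.subgroupOf N → F, zY = fib π (fun x : N => z x) := ⟨_, rfl⟩
    have hInZ : InZ X zY := by
      constructor
      · intro g x
        obtain ⟨g', rfl⟩ := hπs g
        rw [hzY]
        unfold fib
        rw [← finsum_comp_equiv (MulAut.conj g').toEquiv]
        refine finsum_congr fun n => ?_
        have h3 : (MulAut.conj g').toEquiv n = g' * n * g'⁻¹ := rfl
        rw [h3, map_mul, map_mul, map_inv]
        have h4 : (fun x : N => z (x : Γ)) (g' * n * g'⁻¹) = (fun x : N => z (x : Γ)) n :=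
          hz.conj g' n
        rw [h4]
        have h5 : π g' * π n * (π g')⁻¹ = π g' * x * (π g')⁻¹ ↔ π n = x := by
          rw [mul_left_inj, mul_right_inj]
        by_cases h6 : π n = x
        · rw [if_pos h6, if_pos (h5.2 h6)]
        · rw [if_neg h6, if_neg fun h7 => h6 (h5.1 h7)]
      · intro x hx
        rw [hzY]
        unfold fib
        refine (finsum_congr fun n => ?_).trans finsum_zero
        split_ifs with h4
        · refine hz.supp n fun h5 => hx ?_
          rw [← h4, hXm]
          exact h5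
        · rfl
    -- the group `N_G(Q) / Q`
    obtain ⟨j, hj⟩ : ∃ j : Subgroup.normalizer (Q₁ : Set G) →* N, ∀ x, (j x : Γ) = ((x : G) : Γ) :=
      ⟨(G.subtype.comp (Subgroup.subtype _)).codRestrict N fun x => (hA0 x).1 x.2, fun x => rfl⟩
    have hji : Function.Injective j := by
      intro x y hxy
      have h3 := congrArg (fun t : N => (t : Γ)) hxy
      simp only [hj] at h3
      exact Subtype.ext (Subtype.ext h3)
    have hjV : ∀ n : N, π n ∈ X ↔ n ∈ j.range := by
      intro n
      rw [hXm]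
      constructor
      · intro hn
        exact ⟨⟨⟨n, hn⟩, (hA0 _).2 n.2⟩, Subtype.ext (hj _)⟩
      · rintro ⟨x, rfl⟩
        rw [hj]
        exact (x : G).2
    have hdzX := nw_gen p red π hπs (fun x : N => z x) j hji X hjV
      (Q₁.subgroupOf (Subgroup.normalizer (Q₁ : Set G))) ⊥ (by
        intro a h
        rw [Subgroup.mem_bot, Subtype.ext_iff]
        change _ ↔ π (j a) = 1
        rw [hπ1, hj, hmemQ, Subgroup.mem_subgroupOf]) (fun x => z x) (fun a => by rw [hj])
        (fun g x => hz.conj _ _) c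
    have hcardA := card_gen π hπs j hji X hjV
    rw [hπk, hcardQ] at hcardA
    have hdzY : Nw p red (Q.subgroupOf N) (fun x => z x) c =
        Nw p red (⊥ : Subgroup (N ⧸ Q.subgroupOf N)) zY c := by
      have h3 := nw_comap π hπs Pool.Agent.Y930.NV.inf p red ⊥ (fun x : N => z x)
        (fun g x => hz.conj _ _) c
      have h4 : (⊥ : Subgroup (N ⧸ Q.subgroupOf N)).comap π = Q.subgroupOf N := hπk
      rw [h4] at h3
      rw [h3, hzY]
      rfl
    have hclif := h2 p F red (N ⧸ Q.subgroupOf N) X zY c hXidx hInZ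
    have hdgn := h1 p F red (N ⧸ Q.subgroupOf N) X zY c hXp hInZ
    -- the sum over the complements
    have hsum : (∑ R : Subgroup Γ,
        if IsPGroup p R ∧ G ⊔ R = ⊤ ∧ R.subgroupOf G = Q₁ then wl p red z c R else 0) =
        Nat.card Q * ∑ R' : Subgroup (N ⧸ Q.subgroupOf N),
          if IsPGroup p R' ∧ X ⊔ R' = ⊤ ∧ X ⊓ R' = ⊥ then
            Nat.card (Subgroup.normalizer (R' : Set (N ⧸ Q.subgroupOf N))) *
              Nw p red (R'.subgroupOf (Subgroup.normalizer (R' : Set (N ⧸ Q.subgroupOf N))))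
                (fun x => zY x) c else 0 := by
      rw [Finset.mul_sum, ← Finset.sum_filter]
      have h3 : ∀ R' : Subgroup (N ⧸ Q.subgroupOf N), Nat.card Q *
          (if IsPGroup p R' ∧ X ⊔ R' = ⊤ ∧ X ⊓ R' = ⊥ then
            Nat.card (Subgroup.normalizer (R' : Set (N ⧸ Q.subgroupOf N))) *
              Nw p red (R'.subgroupOf (Subgroup.normalizer (R' : Set (N ⧸ Q.subgroupOf N))))
                (fun x => zY x) c else 0) =
          if IsPGroup p R' ∧ X ⊔ R' = ⊤ ∧ X ⊓ R' = ⊥ then
            Nat.card Q * (Nat.card (Subgroup.normalizer (R' : Set (N ⧸ Q.subgroupOf N))) *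
              Nw p red (R'.subgroupOf (Subgroup.normalizer (R' : Set (N ⧸ Q.subgroupOf N))))
                (fun x => zY x) c) else 0 := fun R' => by
        rw [mul_ite, mul_zero]
      rw [Finset.sum_congr rfl fun R' _ => h3 R', ← Finset.sum_filter]
      have hfix : ∀ R : Subgroup Γ, R.subgroupOf G = Q₁ →
          ((R.subgroupOf N).map π).comap π = R.subgroupOf N := by
        intro R hR
        rw [Subgroup.comap_map_eq, hπk, sup_eq_left]
        intro x hx
        exact ((hRQ R hR _).1 hx).1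
      have hRN : ∀ R : Subgroup Γ, R.subgroupOf G = Q₁ → R ≤ N := by
        intro R hR
        rw [hNdef]
        exact Subgroup.le_normalizer.trans (hNR R hR)
      refine Finset.sum_nbij' (fun R => (R.subgroupOf N).map π)
        (fun R' => (R'.comap π).map N.subtype) ?_ ?_ ?_ ?_ ?_
      · intro R hR
        rw [Finset.mem_filter] at hR ⊢
        obtain ⟨-, hR1, hR2, hR3⟩ := hR
        refine ⟨Finset.mem_univ _, IsPGroup.map (IsPGroup.comap_subtype hR1) π, ?_, ?_⟩
        · rw [eq_top_iff]
          intro y _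
          obtain ⟨n, rfl⟩ := hπs y
          have h4 : (n : Γ) ∈ ((G ⊔ R : Subgroup Γ) : Set Γ) := by
            rw [hR2]; exact Subgroup.mem_top _
          rw [Subgroup.normal_mul, Set.mem_mul] at h4
          obtain ⟨g, hg, r, hr, hgr⟩ := h4
          have hrN : r ∈ N := hRN R hR3 hr
          have hgN : g ∈ N := by
            have : g = (n : Γ) * r⁻¹ := by rw [← hgr]; group
            rw [this]
            exact N.mul_mem n.2 (N.inv_mem hrN)
          have h5 : n = ⟨g, hgN⟩ * ⟨r, hrN⟩ := Subtype.ext hgr.symm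
          rw [h5, map_mul]
          exact Subgroup.mul_mem_sup ((hXm _).2 hg) ⟨⟨r, hrN⟩, hr, rfl⟩
        · rw [eq_bot_iff]
          intro y hy
          obtain ⟨hy1, hy2⟩ := hy
          obtain ⟨r, hr, rfl⟩ := hy2
          have hy3 : (r : Γ) ∈ G := (hXm r).1 hy1
          rw [Subgroup.mem_bot, hπ1, hRQ R hR3]
          exact ⟨hr, hy3⟩
      · intro R' hR'
        rw [Finset.mem_filter] at hR' ⊢
        obtain ⟨-, hR1, hR2, hR3⟩ := hR'
        have hker : IsPGroup p π.ker := by
          rw [hπk]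
          exact IsPGroup.comap_subtype hQp
        refine ⟨Finset.mem_univ _, IsPGroup.map (IsPGroup.comap_of_ker_isPGroup hR1 π hker) _,
          ?_, ?_⟩
        · apply sup_eq_top G hp hG
          intro hle
          have h4 : R' ≤ X := by
            intro y hy
            obtain ⟨n, rfl⟩ := hπs y
            rw [hXm]
            exact hle ⟨n, hy, rfl⟩
          rw [sup_eq_left.2 h4] at hR2
          apply hN
          intro x hx
          have h5 : π ⟨x, hx⟩ ∈ X := by rw [hR2]; exact Subgroup.mem_top _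
          exact (hXm ⟨x, hx⟩).1 h5
        · ext x
          rw [Subgroup.mem_subgroupOf]
          constructor
          · rintro ⟨n, hn, hnx⟩
            have hnx' : (n : Γ) = (x : Γ) := hnx
            have h4 : π n ∈ X ⊓ R' := ⟨(hXm n).2 (by rw [hnx']; exact x.2), hn⟩
            rw [hR3, Subgroup.mem_bot, hπ1, hnx', hmemQ] at h4
            exact h4
          · intro hx
            have h4 : (x : Γ) ∈ Q := (hmemQ x).2 hx
            refine ⟨⟨x, hQN h4⟩, ?_, rfl⟩
            have h5 : π ⟨x, hQN h4⟩ = 1 := (hπ1 _).2 h4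
            rw [SetLike.mem_coe, Subgroup.mem_comap, h5]
            exact R'.one_mem
      · intro R hR
        rw [Finset.mem_filter] at hR
        obtain ⟨-, hR1, hR2, hR3⟩ := hR
        rw [hfix R hR3, Subgroup.subgroupOf_map_subtype, inf_eq_left]
        exact hRN R hR3
      · intro R' _
        have h4 : ((R'.comap π).map N.subtype).subgroupOf N = R'.comap π :=
          Subgroup.comap_map_eq_self_of_injective (Subgroup.subtype_injective N) _
        rw [h4, Subgroup.map_comap_eq_self_of_surjective hπs]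
      · intro R hR
        rw [Finset.mem_filter] at hR
        obtain ⟨-, hR1, hR2, hR3⟩ := hR
        have hle : Subgroup.normalizer (R : Set Γ) ≤ N := by
          rw [hNdef]; exact hNR R hR3
        obtain ⟨i, hi⟩ : ∃ i : Subgroup.normalizer (R : Set Γ) →* N,
            ∀ x, (i x : Γ) = (x : Γ) := ⟨Subgroup.inclusion hle, fun x => rfl⟩
        have hii : Function.Injective i := by
          intro x y hxy
          have h3 := congrArg (fun t : N => (t : Γ)) hxy
          simp only [hi] at h3
          exact Subtype.ext h3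
        have hmem : ∀ n : N, π n ∈ (R.subgroupOf N).map π ↔ (n : Γ) ∈ R := by
          intro n
          have h4 := hfix R hR3
          have h5 : n ∈ ((R.subgroupOf N).map π).comap π ↔ n ∈ R.subgroupOf N := by rw [h4]
          rw [Subgroup.mem_comap, Subgroup.mem_subgroupOf] at h5
          exact h5
        have hnn : (Subgroup.normalizer (((R.subgroupOf N).map π : Subgroup _) : Set
            (N ⧸ Q.subgroupOf N))).comap π = Subgroup.normalizer ((R.subgroupOf N : Subgroup N) :
              Set N) := by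
          rw [Subgroup.comap_normalizer_eq_of_le_range (by rw [hπr]; exact le_top), hfix R hR3]
        have hnn2 : (Subgroup.normalizer (R : Set Γ)).comap N.subtype =
            Subgroup.normalizer ((R.subgroupOf N : Subgroup N) : Set N) :=
          Subgroup.comap_normalizer_eq_of_le_range (by
            rw [Subgroup.range_subtype]; exact hRN R hR3)
        have hiV : ∀ n : N, π n ∈ Subgroup.normalizer (((R.subgroupOf N).map π : Subgroup _) :
            Set (N ⧸ Q.subgroupOf N)) ↔ n ∈ i.range := by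
          intro n
          rw [← Subgroup.mem_comap, hnn, ← hnn2, Subgroup.mem_comap]
          constructor
          · intro hn
            exact ⟨⟨n, hn⟩, Subtype.ext (hi _)⟩
          · rintro ⟨x, rfl⟩
            change (i x : Γ) ∈ _
            rw [hi]
            exact x.2
        have h4 := card_gen π hπs i hii _ hiV
        have h5 := nw_gen p red π hπs (fun x : N => z x) i hii _ hiV
          (R.subgroupOf (Subgroup.normalizer (R : Set Γ)))
          (((R.subgroupOf N).map π).subgroupOf _) (by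
            intro a h
            rw [Subgroup.mem_subgroupOf, Subgroup.mem_subgroupOf]
            change _ ↔ π (i a) ∈ _
            rw [hmem, hi]) (fun x => z x) (fun a => by rw [hi]) (fun g x => hz.conj _ _) c
        unfold wl
        rw [h4, h5, hπk, hcardQ, mul_assoc, hzY]
    rw [finsum_eq_sum_of_fintype] at hdgn
    rw [hsum, ← hdgn, hwQ]
    unfold wl
    rw [hdzX, hdzY, ← hzY, ← hclif, hcardA, hcardN, hcardY]
    ring

theorem wsum_eq (red : integralClosure ℤ ℂ →+* F) (G : Subgroup Γ) (z : Γ → F) (c : F) :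
    Wsum p red G ⊤ z c = ((∑ Q : Subgroup Γ,
      if IsPGroup p Q ∧ G ⊔ Q = ⊤ then wl p red z c Q else 0 : ℕ) : ℤ) := by
  unfold Wsum
  rw [finsum_eq_sum_of_fintype]
  push_cast
  refine Finset.sum_congr rfl fun Q _ => ?_
  have h : ∀ J : Subgroup Γ, J = Subgroup.normalizer (Q : Set Γ) →
      (Nat.card J : ℤ) * Nw p red (Q.subgroupOf J) (fun x => z x) c =
        ((wl p red z c Q : ℕ) : ℤ) := by
    rintro _ rfl
    unfold wl
    push_cast
    rfl
  by_cases hQ : IsPGroup p Q ∧ G ⊔ Q = ⊤
  · rw [if_pos hQ, if_pos ⟨hQ.1, le_top, hQ.2⟩]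
    exact h _ (top_inf_eq _)
  · rw [if_neg hQ, if_neg fun h3 => hQ ⟨h3.1, h3.2.2⟩]

end main

section fin

/-- the subgroups of a finite group -/
local instance fsubM {Γ : Type} [Group Γ] [Finite Γ] : Fintype (Subgroup Γ) := Fintype.ofFinite _

/-- labelled weights and normal subgroups of index `p` -/
theorem pewL (h1 : S_DGNL) (h2 : S_CLIFL) : S_PEWL := by
  intro p _ F _ _ red Γ _ _ G _ z c hG hz
  have hp : p.Prime := Fact.out
  have hGtop : G ≠ ⊤ := by
    intro h
    have h3 : G.index = p := hG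
    rw [h, Subgroup.index_top] at h3
    exact hp.one_lt.ne h3
  rw [wsum_eq, wsum_eq, wsum_eq]
  have e1 : (∑ Q : Subgroup Γ, if IsPGroup p Q ∧ ⊤ ⊔ Q = ⊤ then wl p red z c Q else 0) =
      ∑ Q : Subgroup Γ, if IsPGroup p Q then wl p red z c Q else 0 := by
    refine Finset.sum_congr rfl fun Q _ => ?_
    simp only [top_sup_eq, and_true]
  have e2 : (∑ Q : Subgroup G,
      if IsPGroup p Q ∧ ⊤ ⊔ Q = ⊤ then wl p red (fun x : G => z x) c Q else 0) =
      ∑ Q : Subgroup G, if IsPGroup p Q then wl p red (fun x : G => z x) c Q else 0 := by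
    refine Finset.sum_congr rfl fun Q _ => ?_
    simp only [top_sup_eq, and_true]
  rw [e1, e2]
  obtain ⟨cov, e3⟩ : ∃ cov : ℕ, cov =
      ∑ Q : Subgroup Γ, if IsPGroup p Q ∧ G ⊔ Q = ⊤ then wl p red z c Q else 0 := ⟨_, rfl⟩
  rw [← e3]
  -- splitting
  have e4 : (∑ Q : Subgroup Γ, if IsPGroup p Q then wl p red z c Q else 0) = cov +
      ∑ Q : Subgroup Γ, if IsPGroup p Q ∧ Q ≤ G then wl p red z c Q else 0 := by
    rw [e3, ← Finset.sum_add_distrib]
    refine Finset.sum_congr rfl fun Q _ => ?_
    by_cases hQ : IsPGroup p Q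
    · by_cases hQG : Q ≤ G
      · have h3 : ¬ G ⊔ Q = ⊤ := by
          rw [sup_eq_left.2 hQG]
          exact hGtop
        rw [if_pos hQ, if_neg fun h => h3 h.2, if_pos ⟨hQ, hQG⟩, zero_add]
      · rw [if_pos hQ, if_pos ⟨hQ, sup_eq_top G hp hG Q hQG⟩, if_neg fun h => hQG h.2, add_zero]
    · rw [if_neg hQ, if_neg fun h => hQ h.1, if_neg fun h => hQ h.1]
  have e5 : (∑ Q : Subgroup Γ, if IsPGroup p Q ∧ Q ≤ G then wl p red z c Q else 0) =
      ∑ Q₁ : Subgroup G, if IsPGroup p Q₁ then wl p red z c (Q₁.map G.subtype) else 0 := by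
    rw [← Finset.sum_filter, ← Finset.sum_filter]
    refine Finset.sum_nbij' (fun Q => Q.subgroupOf G) (fun Q₁ => Q₁.map G.subtype) ?_ ?_ ?_ ?_ ?_
    · intro Q hQ
      rw [Finset.mem_filter] at hQ ⊢
      exact ⟨Finset.mem_univ _, IsPGroup.comap_subtype hQ.2.1⟩
    · intro Q₁ hQ₁
      rw [Finset.mem_filter] at hQ₁ ⊢
      exact ⟨Finset.mem_univ _, hQ₁.2.map _, Subgroup.map_subtype_le Q₁⟩
    · intro Q hQ
      rw [Finset.mem_filter] at hQ
      rw [Subgroup.subgroupOf_map_subtype, inf_eq_left]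
      exact hQ.2.2
    · intro Q₁ _
      exact Subgroup.comap_map_eq_self_of_injective (Subgroup.subtype_injective G) Q₁
    · intro Q hQ
      rw [Finset.mem_filter] at hQ
      have h3 : (Q.subgroupOf G).map G.subtype = Q := by
        rw [Subgroup.subgroupOf_map_subtype, inf_eq_left]
        exact hQ.2.2
      rw [h3]
  -- the sum over `R`
  have e6 : cov = ∑ Q₁ : Subgroup G, if IsPGroup p Q₁ then (∑ R : Subgroup Γ,
      if IsPGroup p R ∧ G ⊔ R = ⊤ ∧ R.subgroupOf G = Q₁ then wl p red z c R else 0) else 0 := by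
    rw [e3, ← Finset.sum_filter, ← Finset.sum_filter]
    rw [← Finset.sum_fiberwise_of_maps_to (s := Finset.univ.filter fun Q : Subgroup Γ =>
      IsPGroup p Q ∧ G ⊔ Q = ⊤) (t := Finset.univ.filter fun Q₁ : Subgroup G => IsPGroup p Q₁)
      (g := fun R => R.subgroupOf G) (by
        intro R hR
        rw [Finset.mem_filter] at hR ⊢
        exact ⟨Finset.mem_univ _, IsPGroup.comap_subtype hR.2.1⟩)]
    refine Finset.sum_congr rfl fun Q₁ _ => ?_
    rw [Finset.filter_filter, ← Finset.sum_filter]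
    refine Finset.sum_congr ?_ fun _ _ => rfl
    ext R
    simp only [Finset.mem_filter, Finset.mem_univ, true_and]
    tauto
  have e7 : p * (∑ Q₁ : Subgroup G, if IsPGroup p Q₁ then wl p red z c (Q₁.map G.subtype)
      else 0) + cov = p * ∑ Q₁ : Subgroup G,
        if IsPGroup p Q₁ then wl p red (fun x : G => z x) c Q₁ else 0 := by
    rw [e6, Finset.mul_sum, Finset.mul_sum, ← Finset.sum_add_distrib]
    refine Finset.sum_congr rfl fun Q₁ _ => ?_
    by_cases hQ₁ : IsPGroup p Q₁
    · rw [if_pos hQ₁, if_pos hQ₁, if_pos hQ₁]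
      exact local_eqL h1 h2 red G z c hz hG Q₁ hQ₁
    · rw [if_neg hQ₁, if_neg hQ₁, if_neg hQ₁, mul_zero, add_zero]
  rw [e4, e5]
  have e8 := congrArg (fun t : ℕ => (t : ℤ)) e7
  simp only [Nat.cast_add, Nat.cast_mul] at e8
  rw [Nat.cast_add]
  linear_combination e8

end fin

end Pool.Agent.Y487.NV
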